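import Pool.Agent.N198.NF.Main2
import Pool.Agent.N198.NF.Many
import Pool.Agent.LB.KillW

/-!
# The pole of the L-function of diagonal hypersurfaces over number fields

Let `k` be ANY number field and let `X` be a diagonal hypersurface
`c_0 * x_0 ^ m + ... + c_(n+1) * x_(n+1) ^ m = 0` over `k`, of even dimension `n = 2 r - 2` and with any
nonzero coefficients (we may assume that they are integers of `k`), considered as a smooth projective
variety over the rational numbers. The L-function of `H^(2i)(X)` is the L-function of `X` over `k`. Over the
field `K` of `m`-th roots of unity over `k` the primitive cohomology splits into lines `V(a)`, and the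
L-function is a product of L-functions of Hecke characters (Weil). The order of the pole at `s = i + 1` is
the number of the orbits of those lines (and powers of the hyperplane class) on which the Galois group
acts trivially (Hecke), so that the conjecture of Tate on the pole holds for `X` if and only if all lines
`V(a)(i)` with trivial Galois action are algebraic. Those lines are the Tate classes (`TateClass`): for all
but finitely many primes of `K` the product of the Gauss sums of the entries is the power of `q` times the
value of the character at the coefficients. (In odd dimension the only lines of this kind are the powers of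
the hyperplane class.)

The theorem: for every Tate class `s` of degree `m` over `k` with at most `n + 2` entries there is an
auxiliary integer `l > 0` such that the multiset `l s` of degree `l m` is generated by the standard
characters and the basic characters `FourBase`, if `Covered k r m` holds, that is:

for ANY number field `k`, if one of the following conditions holds:

* `n ≤ 6`, and `m` is ARBITRARY.
* `n ≤ 12` and `m` is not divisible by 6; `n ≤ 14` and `m` is odd and not divisible by 87, or twice an
  odd number which is not divisible by 3; `n ≤ 16` and `m` is not divisible by 6, 58, 87; `n ≤ 32` and `m`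
  is prime to 6; `n ≤ 26`, `m` is not divisible by 6 and has no prime factor `q` congruent to 1 modulo 4
  with `29 ≤ q < 2 n + 3`.
* All odd prime factors of `m` are larger than `2 n + 5`; or `m` is odd and the squares of its prime
  factors are larger than `4 n + 9`.

and for number fields `k` without imaginary quadratic subfields and without subfields which are cyclic
of degree 4 over the rational numbers (for instance the field of rational numbers, all real quadratic
fields, all fields of odd degree, all fields of degree `2 d` with `d` odd which contain no imaginary
quadratic field), if one of the following conditions holds (`CoveredGood`); here only the modular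
characters of `FourBase` are needed:

* `n ≤ 26` and `m` is odd or not divisible by 3.
* `n ≤ 14` and `m` is not divisible by 15; `n ≤ 12` and `m` is twice an odd number.
* `8 (n + 2)` is smaller than the product of the numbers `p - 1` for any three different odd prime
  factors `p ≤ 4 n + 9` of `m` (`p ≤ 2 n + 5` if `m` is odd) one of which is congruent to 1 modulo 4.
* `m` is odd and `16 (n + 2)` is smaller than the product of the numbers `p - 1` for any four different
  prime factors `p ≤ 2 n + 5` of `m` one of which is congruent to 1 modulo 4 (for instance all odd
  degrees prime to 15 in all dimensions `n ≤ 86` and all degrees prime to 6 in all dimensions `n ≤ 176`);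
  or `m` is twice an odd number and `32 (n + 2)` is smaller than the product of the `p - 1` for any four
  such odd prime factors `p ≤ 4 n + 9` of `m` (for instance all `m` prime to 15 in the dimensions
  `n ≤ 42`, all `m` prime to 3 in the dimensions `n ≤ 86`).
* All prime factors `p ≤ 4 n + 9` (`p ≤ 2 n + 5` if `m` is odd) of `m` which are congruent to 1 modulo 4
  see only squares among the other ones (`SmallSquares`).

The lines of the standard characters are algebraic (Aoki, Shioda), and so are those of `FourBase`: the
modular characters are determinants of the cohomology of local systems with finite monodromy on the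
modular curve, hence classes on powers of modular curves, for which the Hodge conjecture is known
(Hazama, Murty); the Hodge characters with four entries, and the unions of two curve characters with
three entries, or with five entries whose threefold is uniruled, are treated by Lefschetz, Bloch and
Srinivas. If a line `V(a)` has trivial Galois action over `K` then it is algebraic over `K`, and the traces
are defined over `k`. Hence the conjecture of Tate on the pole, and the conjecture of Tate on algebraic
cycles over `k`, hold for the diagonal hypersurfaces over `k` of dimension `n` and all these degrees `m`,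
in particular FOR ALL DIAGONAL HYPERSURFACES OF DIMENSION AT MOST 6 OVER ALL NUMBER FIELDS (and 7, since
odd dimensions are trivial); and for the products of such hypersurfaces with at most `n + 2` coordinates
in total, for instance the products of two diagonal surfaces of any degree; and for the smooth
hypersurfaces over `k` defined by `n + 2` monomials (Delsarte) which are dominated by diagonal
hypersurfaces of these degrees.

The conditions for arbitrary number fields come from `FermatLengthBound` on the page `MP_e12fcd_ag` (the
Hodge conjecture, by helper992, helper997, helper994 and others). Over the fields without imaginary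
quadratic and cyclic quartic subfields more is true because the parities of a Tate class are even at all
primes congruent to 1 modulo 4; for the rational numbers this is `DiagonalPole`.

The proof. The parity of a multiset `s` at a prime `p` is the number of its entries whose order is a
power of `p`.

* A Tate class is a Hodge character (`Pool/Agent/N426/NF/HT.lean`, by helper426): take a prime above
  a prime number which is 1 modulo `m` and the theorems of Hasse, Davenport and Stickelberger.
* Let `k` be a number field without imaginary quadratic and cyclic quartic subfields. For every prime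
  number `q` congruent to 1 modulo 4, every `R` prime to `q` and every `b` there is an automorphism of the
  algebraic closure of `k` which acts as complex conjugation on the `R`-th roots of unity and trivially on
  the `q ^ b`-th ones: otherwise there is a Dirichlet character `χ` whose field is contained in `k` with
  the value `-1` at this element; one may assume that its order is a power of 2. If the order is 2 then
  `χ` is odd, since `-1` is a square modulo `q`, and `k` contains an imaginary quadratic field; if it is at
  least 4 then `k` contains a cyclic quartic field (`Pool/Agent/N887/NF/GA.lean`, by helper887). By the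
  density theorem of Chebotarev there are primes of `k` of large norm `Q` with `Q = -1` modulo `R` and
  `Q = 1` modulo `q ^ b` (`Pool/Agent/N277/NF/CH.lean`, by helper277, and the Chebotarev files of many
  seats).
* The Gauss sums over the field with `Q ^ 2` elements for the characters of order dividing `Q + 1` are
  pure, and their signs show that the parities of a Tate class over `k` are even at all primes congruent
  to 1 modulo 4 (`Pool/Agent/N198/NF/Par2.lean`, from `Pool/Agent/N279/NF/PAR.lean`, by helper279).
* By `reduce_hodge2` (`Pool/Agent/N997`, by helper997) a Hodge character with few entries is equivalent,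
  modulo all odd distributions, to one of a degree `g` which is only divisible by primes `p ≤ 4 n + 9`
  (`2 n + 5`). The obstruction group of the universal odd distribution has one class for every set `T` of
  odd primes or 4 with `|T|` even. The classes of the pairs are harmless: modulo modular characters they
  only see the parities. For `|T| ≥ 4` there is by `exists_fam` (`Pool/Agent/LB/EvFam.lean`, by helper992,
  helper997 and others, made for the Hodge conjecture) a family of distributions modulo 2 with the class
  of `T` such that every point is a zero of all but a small proportion of the family; only the sets `T`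
  with a prime congruent to 1 modulo 4 matter (`Pool/Agent/N198/NF/Num.lean`, `Kill.lean`, `Core.lean`,
  `Pool/Agent/N198/TE`, and `Pool/Agent/N353/TB` by helper353).

The theorem replaces `AllDegrees` (the field of rational numbers).
-/

namespace Pool.Agent.Results.MP_058a58_ag.EveryNumberField

open NumberField Pool.Agent.H916R2 Pool.Agent.N992 Pool.Agent.N198.NF

/-- The field `k` has no imaginary quadratic subfield and no subfield which is cyclic of degree 4 over
the rational numbers. -/
def GoodField (k : Type) [Field k] [NumberField k] : Prop :=
  (∀ (x : k) (d : ℚ), x ^ 2 = algebraMap ℚ k d → 0 ≤ d) ∧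
  ∀ F : IntermediateField ℚ k, Module.finrank ℚ F = 4 → IsGalois ℚ F → ¬ IsCyclic (F ≃ₐ[ℚ] F)

/-- With `n = 2 r - 2` this is `4 n + 9` for even `m` and `2 n + 5` for odd `m`. -/
def bd (r m : ℕ) : ℕ := if 2 ∣ m then 8 * r + 1 else 4 * r + 1

/-- Every prime factor `p ≤ B` of `m` congruent to 1 modulo 4 sees only squares: all other odd prime
factors `q ≤ B` of `m`, and 2 if `4` divides `m`, are squares modulo `p`. -/
def SmallSquares (B m : ℕ) : Prop :=
  ∀ p : ℕ, p.Prime → p ∣ m → p ≤ B → p % 4 = 1 →
    (∀ q : ℕ, q.Prime → q ∣ m → q ≤ B → q ≠ 2 → q ≠ p → IsSquare (q : ZMod p)) ∧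
      (4 ∣ m → p % 8 = 1)

/-- For any `k` odd prime factors `p ≤ B` of `m`, one of which is congruent to 1 modulo 4, the product of
the `p - 1` is larger than `D`. -/
def Large (k D B m : ℕ) : Prop :=
  ∀ T : Finset ℕ, T.card = k → (∀ p ∈ T, p.Prime ∧ p ≠ 2 ∧ p ∣ m ∧ p ≤ B) → (∃ p ∈ T, p % 4 = 1) →
    D < ∏ p ∈ T, (p - 1)

/-- The degrees `m` which are covered in dimension `n = 2 r - 2` over the fields without imaginary
quadratic and cyclic quartic subfields. -/
def CoveredGood (r m : ℕ) : Prop :=
  (r ≤ 7 ∧ m % 4 = 2) ∨ (r ≤ 8 ∧ ¬ 15 ∣ m) ∨ (r ≤ 14 ∧ (m % 2 = 1 ∨ ¬ 3 ∣ m)) ∨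
    Large 3 (16 * r) (bd r m) m ∨ (m % 2 = 1 ∧ Large 4 (32 * r) (bd r m) m) ∨
    (m % 4 = 2 ∧ Large 4 (64 * r) (bd r m) m) ∨ SmallSquares (bd r m) m

/-- The degrees `m` which are covered in dimension `n = 2 r - 2` over all number fields. -/
def CoveredAll (r m : ℕ) : Prop :=
  r ≤ 4 ∨ (r ≤ 7 ∧ ¬ 6 ∣ m) ∨ (r ≤ 8 ∧ ((m % 2 = 1 ∧ ¬ 87 ∣ m) ∨ (m % 4 = 2 ∧ ¬ 3 ∣ m))) ∨
  (r ≤ 9 ∧ ¬ 6 ∣ m ∧ ¬ 58 ∣ m ∧ ¬ 87 ∣ m) ∨
  (r ≤ 14 ∧ ¬ 6 ∣ m ∧
    ∀ q : ℕ, q.Prime → q ∣ m → q % 4 = 1 → q = 5 ∨ q = 13 ∨ q = 17 ∨ 4 * r - 1 ≤ q) ∨
  (r ≤ 17 ∧ m % 2 = 1 ∧ ¬ 3 ∣ m) ∨
  (∀ p : ℕ, p.Prime → p ≠ 2 → p ∣ m → 4 * r + 1 < p) ∨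
  (m % 2 = 1 ∧ ∀ p : ℕ, p.Prime → p ∣ m → 8 * r + 1 < p ^ 2)

/-- The covered number fields, dimensions `n = 2 r - 2` and degrees. -/
def Covered (k : Type) [Field k] [NumberField k] (r m : ℕ) : Prop :=
  CoveredAll r m ∨ (GoodField k ∧ CoveredGood r m)

lemma covered10 {r m : ℕ} (hr : 1 ≤ r) (h : CoveredAll r m) :
    Pool.Agent.LB.Covered10 m (2 * r - 2) := by
  rcases h with h | ⟨h, h6⟩ | ⟨h, ⟨h1, h2⟩ | ⟨h1, h2⟩⟩ | ⟨h, h6, h58, h87⟩ | ⟨h, h6, hq⟩ |
    ⟨h, h1, h2⟩ | h | ⟨h1, h⟩
  · exact Or.inl (by omega)
  · exact Or.inr (Or.inl ⟨by omega, h6⟩)
  · exact Pool.Agent.LB.covered10_odd h1 h2 (by omega)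
  · exact Pool.Agent.LB.covered10_two h1 h2 (by omega)
  · exact Pool.Agent.LB.covered10_17 h6 h58 h87 (by omega)
  · refine Or.inr (Or.inr (Or.inl ⟨by omega, h6, fun q h1 h2 h3 => ?_⟩))
    rcases hq q h1 h2 h3 with h4 | h4 | h4 | h4
    · exact Or.inl h4
    · exact Or.inr (Or.inl h4)
    · exact Or.inr (Or.inr (Or.inl h4))
    · exact Or.inr (Or.inr (Or.inr (by omega)))
  · exact Pool.Agent.LB.covered10_six h1 h2 (by omega)
  · refine Or.inr (Or.inr (Or.inr (Or.inl fun p h1 h2 h3 => ?_)))
    have := h p h1 h2 h3
    omega
  · refine Or.inr (Or.inr (Or.inr (Or.inr (Or.inl ⟨h1, fun p h2 h3 => ?_⟩))))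
    have := h p h2 h3
    omega

theorem result (k : Type) [Field k] [NumberField k] (r m : ℕ) [NeZero m] (hm : Covered k r m)
    (s : Multiset (ZMod m × 𝓞 k)) (hne : s ≠ 0) (heven : Even (Multiset.card s))
    (hcard : Multiset.card s ≤ 2 * r) (h0 : ∀ z ∈ s, z.1 ≠ 0 ∧ z.2 ≠ 0)
    (hsum : (s.map Prod.fst).sum = 0) (hT : TateClass k m s) :
    ∃ l : ℕ, ∃ _ : NeZero (l * m), Generated (l * m) (FourBase (l * m))
        ((s.map Prod.fst).map (fun a => ((l * a.val : ℕ) : ZMod (l * m)))) := by
  have hr : 1 ≤ r := by
    by_contra h
    exact hne (Multiset.card_eq_zero.mp (by omega))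
  rcases hm with h | ⟨hk, h⟩
  · obtain ⟨l, hl, hgen⟩ := Pool.Agent.LB.lengthBound10 m (2 * r - 2) (covered10 hr h)
    have hm2 : 2 ≤ m := by
      by_contra hlt
      have hm1 : m = 1 := by have := NeZero.pos m; omega
      subst hm1
      obtain ⟨z, hz⟩ := Multiset.exists_mem_of_ne_zero hne
      exact (h0 z hz).1 (Subsingleton.elim _ _)
    exact ⟨l, hl, hgen _ (Pool.Agent.N426.NF.hodge_of_tate hm2 (fun z hz => (h0 z hz).1) heven hsum
      (fun z hz => (h0 z hz).2) hT) (fun h => hne (Multiset.map_eq_zero.mp h))
      (by rw [Multiset.card_map]; omega)⟩
  · obtain ⟨l, hl, hgen⟩ := main_nf2 (manyPrimes hk.1 hk.2) r m (Or.inr h) s hne heven hcard h0 hsum hT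
    exact ⟨l, hl, Pool.Agent.Y2.Cv.generated_mono (fun _ h => Or.inr h) hgen⟩

end Pool.Agent.Results.MP_058a58_ag.EveryNumberField
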