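import Pool.Agent.N172.HS.Pf

/-!
# Tate's pole conjecture for the products of a variety with all varieties of CM type

`X` is a smooth projective variety over a number field `K`, for example over `K = ℚ`, and `Y` runs
through ALL varieties of CM type over `K`, of any dimension: those whose cohomology is a sum of
representations of the Weil group of `K`, for example products of curves with Jacobians of CM type,
abelian varieties of CM type, Fermat varieties, their twists, and all varieties whose cohomology is
generated by algebraic cycles over the algebraic closure.  The theorem is about the order of the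
pole of `L(H^n(X × Y), s)` at `s = n/2 + 1`, in the conjecture `n = 2m`.

The definitions are in `Pool.Agent.N172.HS` (`Defs`, `Gr`, `Rep`, `Pa`, `Pr`), `Pool.Agent.Y149.Ord` and
`Pool.Agent.W353.EF.Defs`:

* `Variety K`: projective varieties with given equations, dimension and Betti numbers whose Frobenius
  eigenvalues (from the numbers of points) exist at almost all primes;
* `WRep K`: virtual representations `∑ c_j Ind χ_j` with unitary Hecke characters `χ_j` of finite
  extensions `F_j` of `K` (`IsHecke`) and integers `c_j`; by the theorem of Brauer all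
  finite-dimensional unitary representations of the Weil group of `K` are of this kind;
* `ρ.inner σ`: the inner product of the characters, by the formula of Mackey; `ρ.IsIrr`:
  `ρ.inner ρ = 1`, that is, `ρ` is irreducible; `WRep.one K` is the trivial representation;
* `CMVariety K`: varieties `Y` for which `H^b(Y)(b/2)`, `b ≤ 2 dim Y`, is the sum of the trivial
  representation, `triv b` times, and of nontrivial irreducible representations `π b j`, `j < r b`;
* `Y.SizeLe C`: there are at most `C` nontrivial constituents, `∑ r b ≤ C`; `Y.Avoids σ`: no `σ k` is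
  one of them;
* `IsPart X a (θ a) (N' a)`: `H^a(X) = θ_a(-a/2) ⊕ H'_a` with `dim H'_a = N'_a`; for example `θ_a = 0` and
  `N'_a = dim H^a(X)`, or for even `a` `θ_a` the space of the classes of the algebraic cycles of
  codimension `a/2` on `X` over the algebraic closure;
* `IsProduct X Y n B`: `B` are the Euler factors of `L(H^n(X × Y), s)` (formula of Künneth);
  `IsEulerSystem X.eqs X.dim a (X.betti a) (A a)`: `A a` are those of `L(H^a(X), s)`; `IsTensor X a ρ B`:
  `B` are those of `L(H^a(X) ⊗ ρ, s)`;
* `expected X Y θ n x = ∑_{a + b = n} (triv b · x_a + ∑_j ⟨π b j, θ_a⟩)`;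
* `size i B ε = log |L(i/2 + 1 + ε)| / log(1/ε)`; `HasOrder i B r`: `ε^{-r} L(i/2 + 1 + ε)` has a finite
  nonzero limit as `ε → 0⁺`, so that `ord_{s = i/2+1} L(s) = r` in the sense of the problem.
-/

set_option autoImplicit false

namespace Pool.Agent.Results.MP_058a58_ag.ProductsOfCMType

open NumberField IsDedekindDomain Filter Topology Polynomial
open Pool.Agent.W353.EF (IsEulerSystem LFun size)
open Pool.Agent.Y149.Ord (HasOrder)
open Pool.Agent.N172.HS

/-- **Tate's pole conjecture for the products of `X` with all varieties of CM type.**  Let `X` be a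
variety over the number field `K` with `H^a(X) = θ_a(-a/2) ⊕ H'_a`, `dim H'_a = N'_a`, for example the
algebraic and the transcendental part, and `R = ∑ N'_a²`.
1. (No continuation is assumed.)  For every `C` and `0 < δ < 1` there is a set `S` of at most
`C³ R / δ²` nontrivial irreducible representations of the Weil group of `K` (of at most `C³ R` for `δ`
close to `1`) such that for all varieties `Y` of CM type with at most `C` nontrivial constituents,
none of them in `S`, and all `n`: for arbitrarily small `ε > 0` the size of `L(H^n(X × Y), s)` differs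
by less than `δ` from the number `∑_{a + b = n} (triv b · x_a + ∑_j ⟨π b j, θ_a⟩)`, `x_a` the size of
`L(H^a(X), s)`; and the order of the pole of `L(H^n(X × Y), s)` at `s = n/2 + 1` is this number with
the orders `x_a` of the poles of the `L(H^a(X), s)` at `s = a/2 + 1`, if these orders exist.
2. If the orders of all `L(H^a(X) ⊗ ρ, s)` at `s = a/2 + 1` exist, for the nontrivial irreducible `ρ`,
then there is one set `S` of at most `R` nontrivial irreducible representations which works for all
varieties `Y` of CM type without constituents in `S` and all `n`; and the difference tends to `0`. -/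
theorem result (K : Type) [Field K] [NumberField K] (X : Variety K) (θ : ℕ → WRep K) (N' : ℕ → ℕ)
    (hθ : ∀ a ≤ 2 * X.dim, IsPart X a (θ a) (N' a)) :
    (∀ (C : ℕ) (δ : ℝ), 0 < δ → δ < 1 → ∃ (s : ℕ) (σ : Fin s → WRep K),
      s * δ ^ 2 ≤ (C : ℝ) ^ 3 * (∑ a ∈ Finset.range (2 * X.dim + 1), N' a ^ 2 : ℕ) ∧
      (∀ k, (σ k).IsIrr ∧ (σ k).inner (WRep.one K) = 0) ∧
      ∀ Y : CMVariety K, Y.SizeLe C → Y.Avoids σ → ∀ (n : ℕ)
        (B : HeightOneSpectrum (𝓞 K) → ℂ[X]) (A : ℕ → HeightOneSpectrum (𝓞 K) → ℂ[X]),
        IsProduct X Y.toVariety n B →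
        (∀ a ≤ 2 * X.dim, IsEulerSystem X.eqs X.dim a (X.betti a) (A a)) →
        (∃ᶠ ε : ℝ in 𝓝[>] 0,
          |size n B ε - expected X Y θ n (fun a => size a (A a) ε)| < δ) ∧
        ∀ (r : ℤ) (r₀ : ℕ → ℤ), HasOrder n B (-r) →
          (∀ a ≤ 2 * X.dim, HasOrder a (A a) (-(r₀ a))) →
          (r : ℝ) = expected X Y θ n (fun a => (r₀ a : ℝ))) ∧
    ((∀ ρ : WRep K, ρ.IsIrr → ρ.inner (WRep.one K) = 0 → ∀ a ≤ 2 * X.dim,
        ∃ (B : HeightOneSpectrum (𝓞 K) → ℂ[X]) (r : ℤ), IsTensor X a ρ B ∧ HasOrder a B r) →
      ∃ (s : ℕ) (σ : Fin s → WRep K),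
        s ≤ ∑ a ∈ Finset.range (2 * X.dim + 1), N' a ^ 2 ∧
        (∀ k, (σ k).IsIrr ∧ (σ k).inner (WRep.one K) = 0) ∧
        ∀ Y : CMVariety K, Y.Avoids σ → ∀ (n : ℕ)
          (B : HeightOneSpectrum (𝓞 K) → ℂ[X]) (A : ℕ → HeightOneSpectrum (𝓞 K) → ℂ[X]),
          IsProduct X Y.toVariety n B →
          (∀ a ≤ 2 * X.dim, IsEulerSystem X.eqs X.dim a (X.betti a) (A a)) →
          Tendsto (fun ε => size n B ε - expected X Y θ n (fun a => size a (A a) ε)) (𝓝[>] 0)
            (𝓝 0) ∧
          ∀ (r : ℤ) (r₀ : ℕ → ℤ), HasOrder n B (-r) →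
            (∀ a ≤ 2 * X.dim, HasOrder a (A a) (-(r₀ a))) →
            (r : ℝ) = expected X Y θ n (fun a => (r₀ a : ℝ))) :=
  ⟨fun C _ hδ0 hδ1 => product_exceptions hθ C hδ0 hδ1, product_all hθ⟩

end Pool.Agent.Results.MP_058a58_ag.ProductsOfCMType
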