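import Pool.Agent.N881.GW.T4

/-!
# The pole of the L-functions of all varieties at the edge, read off from the Frobenius traces

`X` is a projective variety over a number field `K`, `e = i/2 + 1` (`i = 2m`, `e = m + 1` in Tate's
conjecture), `a_v` the trace of the geometric Frobenius on `H^i(X)` for `v ∉ S`, and

`U_A(x) = √(A / (π log x)) ∑_{v ∉ S} a_v log(Nv) Nv^{-e} exp (-A (log (Nv / x))² / log x)`.

The function `L(H^i(X), s)` has a meromorphic continuation to a neighbourhood of `s = e`, with a pole of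
order `ρ`, if and only if `U_A(x) = ρ + O(x^{-η})` for some `η > 0`, and this does not depend on `A > 0`.
Nothing is assumed about the continuation, and nothing about other points of the line `Re s = e`.

The definitions of `IsFrobenius` and `LFun` are in `Pool/Agent/TH958/BV/Defs.lean`.
-/

set_option autoImplicit false

namespace Pool.Agent.Results.MP_058a58_ag.TatePoleCriterion

open NumberField IsDedekindDomain Filter Topology Polynomial
open Pool.Agent.TH958.BV

/-- The abscissa of the edge of absolute convergence. -/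
noncomputable def edge (i : ℕ) : ℝ := (i : ℝ) / 2 + 1

/-- `L` has a pole of order `ρ` at `e`: it extends meromorphically from `Re s > e` to a neighbourhood
of `e`, and `(s - e)^ρ L(s)` is holomorphic and nonzero at `e`. -/
def HasPole (L : ℂ → ℂ) (e : ℝ) (ρ : ℤ) : Prop :=
  ∃ F : ℂ → ℂ, AnalyticAt ℂ F e ∧ F e ≠ 0 ∧
    ∀ᶠ s : ℂ in 𝓝 (e : ℂ), e < s.re → (s - e) ^ ρ * L s = F s

section

variable {K : Type} [Field K] [NumberField K] {N : ℕ}

open Classical in
/-- The sum `U_A(x)` over the primes outside `S`, where `∑ j, α v j` is the trace of Frobenius. -/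
noncomputable def average (α : HeightOneSpectrum (𝓞 K) → Fin N → ℂ)
    (S : Finset (HeightOneSpectrum (𝓞 K))) (e A x : ℝ) : ℂ :=
  √(A / (Real.pi * Real.log x)) * ∑' v : HeightOneSpectrum (𝓞 K), if v ∈ S then 0 else
    (∑ j, α v j) * ((Real.log (Ideal.absNorm v.asIdeal) * (Ideal.absNorm v.asIdeal : ℝ) ^ (-e) *
      Real.exp (-(A * (Real.log (Ideal.absNorm v.asIdeal) - Real.log x) ^ 2 / Real.log x)) : ℝ) : ℂ)

open Classical in
/-- The same sum over all powers `Nv ^ (k + 1)` of the primes outside `S`. -/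
noncomputable def fullAverage (α : HeightOneSpectrum (𝓞 K) → Fin N → ℂ)
    (S : Finset (HeightOneSpectrum (𝓞 K))) (e A x : ℝ) : ℂ :=
  √(A / (Real.pi * Real.log x)) * ∑' p : HeightOneSpectrum (𝓞 K) × ℕ, if p.1 ∈ S then 0 else
    (∑ j, α p.1 j ^ (p.2 + 1)) * ((Real.log (Ideal.absNorm p.1.asIdeal) *
      (Ideal.absNorm p.1.asIdeal : ℝ) ^ (-(((p.2 : ℝ) + 1) * e)) *
      Real.exp (-(A * (((p.2 : ℝ) + 1) * Real.log (Ideal.absNorm p.1.asIdeal) - Real.log x) ^ 2 /
        Real.log x)) : ℝ) : ℂ)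

open Classical in
/-- The Euler product of the `∏ (1 - α_j Nv^{-s})⁻¹` over the primes outside `S`. -/
noncomputable def partialProduct (α : HeightOneSpectrum (𝓞 K) → Fin N → ℂ)
    (S : Finset (HeightOneSpectrum (𝓞 K))) (s : ℂ) : ℂ :=
  ∏' v : HeightOneSpectrum (𝓞 K), if v ∈ S then 1 else
    ∏ j, (1 - α v j * (Ideal.absNorm v.asIdeal : ℂ) ^ (-s))⁻¹

end

/-- The region of the `s` with `Re s > e - 2 A` and `Re ((s - e) + (s - e)² / (4 A)) > - κ`. -/
def region (e A κ : ℝ) : Set ℂ :=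
  {s : ℂ | e - 2 * A < s.re ∧ -κ < ((s - e) + (s - e) ^ 2 / (4 * A)).re}

/-- `L` has a meromorphic continuation to `U`, with order `-ρ` at `e` and without other zeros or
poles in `U`. -/
def ContinuesTo (L : ℂ → ℂ) (e : ℝ) (ρ : ℤ) (U : Set ℂ) : Prop :=
  ∃ F : ℂ → ℂ, (∀ s ∈ U, e < s.re → F s = L s) ∧ ∀ s ∈ U, MeromorphicAt F s ∧
    (s = e → meromorphicOrderAt F s = ((-ρ : ℤ) : WithTop ℤ)) ∧
    (s ≠ e → meromorphicOrderAt F s = 0)

/-- **The criterion.**  Let `X` be a projective variety over a number field `K`, let `α_v` be the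
eigenvalues of Frobenius on `H^i(X)` at the primes `v ∉ S`, `S` finite, and let `B_v` be the
polynomials which define the Euler factors, `B_v(z) = ∏ (1 - α_j z)` for `v ∉ S`, and
`B_v(Nv^{-e}) ≠ 0` for `v ∈ S`, where `e = i/2 + 1`.

1. For every integer `ρ` the following are equivalent: `L(H^i(X), s)` has a pole of order `ρ` at
   `s = e`; for every `A > 0` there is an `η > 0` with `U_A(x) = ρ + O(x^{-η})`, `x ≥ 2`; for one `A > 0`
   there is an `η > 0` with `U_A(x) = ρ + O(x^{-η})`, `x → ∞`.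
2. If `L(H^i(X), s)` has a meromorphic continuation to a neighbourhood of `s = e`, then it has a pole
   of some order `ρ` there, and `U_A(x) → ρ` for every `A > 0`.
3. For `0 < κ₀ ≤ A` and every integer `ρ`, the Euler product over the primes outside `S` has a
   meromorphic continuation to the region `region e A κ₀`, with a pole of order `ρ` at `e` and no
   other zero or pole in the region, if and only if the sum over all prime powers is
   `ρ + O(x^{-κ})` for every `κ < κ₀`. -/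
theorem result (K : Type) [Field K] [NumberField K] (n : ℕ)
    (X : Set (MvPolynomial (Fin n) (𝓞 K))) (d i N : ℕ)
    (α : HeightOneSpectrum (𝓞 K) → Fin N → ℂ) (S : Finset (HeightOneSpectrum (𝓞 K)))
    (hα : ∀ v ∉ S, IsFrobenius X d i v (α v))
    (B : HeightOneSpectrum (𝓞 K) → ℂ[X])
    (hB : ∀ v ∉ S, ∀ z : ℂ, (B v).eval z = ∏ j, (1 - α v j * z))
    (hbad : ∀ v ∈ S, (B v).eval ((Ideal.absNorm v.asIdeal : ℂ) ^ (-(edge i : ℂ))) ≠ 0) :
    (∀ ρ : ℤ, List.TFAE [
      HasPole (LFun B) (edge i) ρ,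
      ∀ A : ℝ, 0 < A → ∃ η : ℝ, 0 < η ∧ ∃ C : ℝ, ∀ x : ℝ, 2 ≤ x →
        ‖average α S (edge i) A x - ρ‖ ≤ C * x ^ (-η),
      ∃ A : ℝ, 0 < A ∧ ∃ η : ℝ, 0 < η ∧ ∃ C X : ℝ, ∀ x : ℝ, X ≤ x →
        ‖average α S (edge i) A x - ρ‖ ≤ C * x ^ (-η)]) ∧
    ((∃ F : ℂ → ℂ, MeromorphicAt F (edge i) ∧
      ∀ᶠ s : ℂ in 𝓝 (edge i : ℂ), edge i < s.re → F s = LFun B s) →
      ∃ ρ : ℤ, HasPole (LFun B) (edge i) ρ ∧ ∀ A : ℝ, 0 < A →
        Tendsto (fun x => average α S (edge i) A x) atTop (𝓝 (ρ : ℂ))) ∧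
    (∀ (ρ : ℤ) (A κ₀ : ℝ), 0 < A → 0 < κ₀ → κ₀ ≤ A →
      (ContinuesTo (partialProduct α S) (edge i) ρ (region (edge i) A κ₀) ↔
        ∀ κ : ℝ, κ < κ₀ → ∃ C : ℝ, ∀ x : ℝ, 2 ≤ x →
          ‖fullAverage α S (edge i) A x - ρ‖ ≤ C * x ^ (-κ))) := by
  classical
  have hα' : ∀ v ∉ S, ∀ j, ‖α v j‖ ≤ (Pool.Agent.TH339.MP.nm v : ℝ) ^ ((i : ℝ) / 2) :=
    fun v hv j => (Pool.Agent.N881.GW.frob_norm (hα v hv) j).le
  obtain ⟨h1, h2⟩ := Pool.Agent.N881.GW.x_edge (w := (i : ℝ) / 2) hα' hB hbad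
  refine ⟨h1, h2, ?_⟩
  intro ρ A κ₀ hA hκ0 hκA
  obtain ⟨β, hβ, hβ', hLD, hMM⟩ := Pool.Agent.N881.GW.x_data hα'
  have hfa : ∀ A x, fullAverage α S (edge i) A x =
      Pool.Agent.N881.GW.xavg α S ((i : ℝ) / 2 + 1) A x := by
    intro A x
    unfold fullAverage Pool.Agent.N881.GW.xavg
    congr 1
    refine tsum_congr fun p => ?_
    split_ifs
    · rfl
    · unfold Pool.Agent.N881.GW.xterm edge Pool.Agent.TH339.MP.nm
      rw [mul_assoc (Real.log _), Complex.ofReal_mul, ← mul_assoc]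
  have key := hLD.centre_one (le_refl _) (fun A x hA hx => hMM ((i : ℝ) / 2 + 1) A x hA hx) (-ρ)
    hA hκ0 hκA
  have h12 := key.out 0 1
  have hreg : ∀ s : ℂ, s ∈ region (edge i) A κ₀ ↔
      s - (((i : ℝ) / 2 + 1 : ℝ) : ℂ) ∈ Pool.Agent.N881.GW.reg A κ₀ := by
    intro s
    have h3 := Pool.Agent.N881.GW.xr_eq hA.ne' (s - (((i : ℝ) / 2 + 1 : ℝ) : ℂ))
    constructor
    · rintro ⟨k1, k2⟩
      refine ⟨?_, ?_⟩
      · rw [Complex.sub_re, Complex.ofReal_re]
        unfold edge at k1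
        linarith
      · rw [← h3]
        exact k2
    · rintro ⟨k1, k2⟩
      rw [← h3] at k2
      refine ⟨?_, k2⟩
      rw [Complex.sub_re, Complex.ofReal_re] at k1
      unfold edge
      linarith
  have hL : partialProduct α S = Pool.Agent.N881.GW.xL α S := rfl
  have hcont : ContinuesTo (partialProduct α S) (edge i) ρ (region (edge i) A κ₀) ↔
      ∃ F : ℂ → ℂ, (∀ s : ℂ, s - (((i : ℝ) / 2 + 1 : ℝ) : ℂ) ∈ Pool.Agent.N881.GW.reg A κ₀ →
          (i : ℝ) / 2 + 1 < s.re → F s = Pool.Agent.N881.GW.xL α S s) ∧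
        ∀ s : ℂ, s - (((i : ℝ) / 2 + 1 : ℝ) : ℂ) ∈ Pool.Agent.N881.GW.reg A κ₀ →
          MeromorphicAt F s ∧ meromorphicOrderAt F s =
            (Pool.Agent.N881.GW.pt ((i : ℝ) / 2 + 1) (-ρ) s : WithTop ℤ) := by
    rw [hL]
    refine exists_congr fun F => and_congr ?_ ?_
    · refine forall_congr' fun s => ?_
      rw [hreg s]
      rfl
    · refine forall_congr' fun s => ?_
      rw [hreg s]
      refine imp_congr_right fun _ => and_congr_right fun _ => ?_
      unfold Pool.Agent.N881.GW.pt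
      by_cases h : s = (((i : ℝ) / 2 + 1 : ℝ) : ℂ)
      · rw [if_pos h]
        constructor
        · intro h4
          exact h4.1 h
        · intro h4
          exact ⟨fun _ => h4, fun h5 => absurd h h5⟩
      · rw [if_neg h]
        constructor
        · intro h4
          exact h4.2 h
        · intro h4
          exact ⟨fun h5 => absurd h5 h, fun _ => h4⟩
  rw [hcont, h12]
  refine forall_congr' fun κ => forall_congr' fun _ => exists_congr fun C =>
    forall_congr' fun x => forall_congr' fun _ => ?_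
  rw [hfa]
  push_cast
  rw [← sub_eq_add_neg]

end Pool.Agent.Results.MP_058a58_ag.TatePoleCriterion
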