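import Pool.Agent.N172.TW.Ind

/-!
# Tate's pole conjecture for all twists of a variety by a finite group of automorphisms

`X` is a smooth projective variety of dimension `d` over a number field `K` (for example `K = ℚ`) and
`A` is a finite group of automorphisms of `X` over the algebraic closure which is stable under the
absolute Galois group `Gal` of `K` (`IsAction`); `act` is the action of `Gal` on `A`, and the
automorphisms in `A` are defined over the finite Galois extension `L` of `K`.  A continuous cocycle
`c : Gal → A` gives the twist `X_c` of `X`, and a subgroup `B` of `A` which is stable under the twisted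
action gives the quotient `X_c / B` (`Form`; for example `X_c` itself for `B = 1`, and `X / A`).  There
are in general infinitely many twists.  The theorem says that Tate's conjecture on the order of the
pole of `L(H^{2m}, s)` at `s = m + 1` for all of them is governed by one finite extension `M` of `K` of
explicitly bounded degree, and reduces to finitely many of them.

The definitions are in `Pool.Agent.N172.TW.Defs`, `Pool.Agent.N172.TW.Chain` (`IsInv`),
`Pool.Agent.Y149.Ord` and `Pool.Agent.W353.EF.Defs`:

* `Coh X act M d N`: the cohomology of `X` with the actions of `A` and of the Frobenius elements at the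
  primes `v` of `K`: unitary representations `ρ v k` of `A` of dimension `N k = dim H^k(X)` with
  characters `χ k`, and unitary operators `W v k` (the Frobenius elements divided by the square roots
  of their weights), with the formula of Lefschetz for the points `x` with `F^e x = b x`, `b ∈ A`;
* `IsInv H i n₀`: `n₀ = dim H^i(X)^A = dim H^i(X / A)`;
* `IsEuler H F i m E`: the polynomials `E v` are the Euler factors of `L(H^i(X_c / B), s)`, `m` is the
  dimension of `H^i(X_c / B)`;
* `SameType M F F'`: `B c(Uσ) = B' c'(Uσ)` for all `σ ∈ Gal`, `U = Gal(K̄/M)`;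
* `size i E ε = log |L(i/2 + 1 + ε)| / log(1/ε)`; `HasOrder i E r`: `ε^{-r} L(i/2 + 1 + ε)` has a finite
  nonzero limit as `ε → 0⁺`, so that `ord_{s = i/2+1} L(s) = r` in the sense of the problem;
* `F.cycles R`: the algebraic cycles on `X_c / B` inside the space of the cycles on `X` over the
  algebraic closure, on which `A` and `Gal` act by `R`;
* `IsAlgebraic H i`: the Frobenius elements act on `H^i(X / A)` as on the classes of algebraic cycles
  over `K`.
-/

set_option autoImplicit false

namespace Pool.Agent.Results.MP_058a58_ag.TwistedForms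

open NumberField IsDedekindDomain Filter Topology Polynomial
open Pool.Agent.W353.EF (LFun size)
open Pool.Agent.Y149.Ord (HasOrder)
open Pool.Agent.N172.TW

/-- **Tate's pole conjecture for all twists.**  No analytic continuation is assumed.  Let `I` be a
finite set of degrees, `N i = dim H^i(X)` and `n₀ i = dim H^i(X)^A`.
1. There is a finite Galois extension `M` of `K` containing `L`, of degree at most
`[L : K] |A|^(8 ∑ (N i - n₀ i)²)` (sum over `i ∈ I`), with the following properties.
(a) There are at most `2^(|A| [M : K])` twisted quotients `S` of `X` such that every twisted quotient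
`X_c / B` has the same type over `M` as one in `S`; `X_c / B` has the type of `X / A` if
`B c(Gal(K̄/M)) = A`.
(b) If `X_c / B` and `X_{c'} / B'` have the same type over `M`, they have the same algebraic cycles
(for cycles on `X` defined over `L`), and for all `i ∈ I`: their `L`-functions are not zero at
`i/2 + 1 + ε` for small `ε > 0`, the difference of their sizes is smaller than one for arbitrarily
small `ε > 0`, and the orders at `s = i/2 + 1` are equal if they exist; so the order of the pole is the
rank of the group of cycles for `X_c / B` if and only if this holds for `X_{c'} / B'`.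
(c) If `H^i(X / A)` is algebraic, then for all `X_c / B` of the type of `X / A` the size differs from
`n₀ i` by less than one for arbitrarily small `ε > 0`, and the order is `- n₀ i` if it exists.
2. Let `c_1, …, c_n` be cocycles which are independent over `L`: `(c_1, …, c_n)` maps `Gal(K̄/L)` onto
`A^n`; and let `i ∈ I`.  For every `η > 0` and all small `ε > 0` the sum of the squares of the
differences of the sizes of `L(H^i(X_{c_k} / B_k))` and of `L(H^i(X / A))` is at most
`(N i - n₀ i)² + η`.  If the orders `r_k`, `r₀` exist, `∑ (r_k - r₀)² ≤ (N i - n₀ i)²`; if `H^i(X / A)`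
is algebraic, `∑ (r_k + n₀ i)² ≤ (N i - n₀ i)²`. -/
theorem result (K : Type) [Field K] [NumberField K] (A : Type) [Group A] [Finite A] (l d : ℕ)
    (N n₀ : ℕ → ℕ) (X : Set (MvPolynomial (Fin l) (𝓞 K)))
    (act : Gal(AlgebraicClosure K/K) →* MulAut A)
    (M : A → Matrix (Fin l) (Fin l) (𝓞 (AlgebraicClosure K))) (H : Coh X act M d N)
    (I : Finset ℕ) (hn₀ : ∀ i ∈ I, IsInv H i (n₀ i))
    (L : IntermediateField K (AlgebraicClosure K)) [FiniteDimensional K L] [IsGalois K L]
    (hL : L.fixingSubgroup ≤ act.ker) :
    (∃ M' : IntermediateField K (AlgebraicClosure K), L ≤ M' ∧ FiniteDimensional K M' ∧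
      IsGalois K M' ∧ Module.finrank K M' ≤
        Module.finrank K L * Nat.card A ^ (8 * ∑ i ∈ I, (N i - n₀ i) ^ 2) ∧
      (∃ S : Finset (Form act), S.card ≤ 2 ^ (Nat.card A * Module.finrank K M') ∧
        ∀ F : Form act, ∃ F' ∈ S, SameType M' F F') ∧
      (∀ F : Form act, (∀ a, ∃ b ∈ F.B, ∃ u ∈ M'.fixingSubgroup, a = b * F.c u) →
        SameType M' F (quotientForm act)) ∧
      (∀ F F' : Form act, SameType M' F F' →
        (∀ (k V : Type) [Field k] [AddCommGroup V] [Module k V]
          (R : Representation k (A ⋊[act] Gal(AlgebraicClosure K/K)) V),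
          (∀ σ ∈ L.fixingSubgroup, R (SemidirectProduct.inr σ) = 1) →
          F.cycles R = F'.cycles R) ∧
        ∀ i ∈ I, ∀ (m m' : ℕ) (E E' : HeightOneSpectrum (𝓞 K) → ℂ[X]),
          IsEuler H F i m E → IsEuler H F' i m' E' →
          (∀ᶠ ε : ℝ in 𝓝[>] 0, LFun E ((i : ℂ) / 2 + 1 + ε) ≠ 0) ∧
          (∃ᶠ ε : ℝ in 𝓝[>] 0, |size i E ε - size i E' ε| < 1) ∧
          ∀ r r' : ℤ, HasOrder i E r → HasOrder i E' r' → r = r' ∧
            ∀ (k V : Type) [Field k] [AddCommGroup V] [Module k V]
              (R : Representation k (A ⋊[act] Gal(AlgebraicClosure K/K)) V),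
              (∀ σ ∈ L.fixingSubgroup, R (SemidirectProduct.inr σ) = 1) →
              (r = -(Module.finrank k (F.cycles R) : ℤ) ↔
                r' = -(Module.finrank k (F'.cycles R) : ℤ))) ∧
      ∀ i ∈ I, IsAlgebraic H i → ∀ F : Form act, SameType M' F (quotientForm act) →
        ∀ (m : ℕ) (E : HeightOneSpectrum (𝓞 K) → ℂ[X]), IsEuler H F i m E →
          (∃ᶠ ε : ℝ in 𝓝[>] 0, |size i E ε - n₀ i| < 1) ∧
          ∀ r : ℤ, HasOrder i E r → r = -(n₀ i : ℤ)) ∧
    ∀ i ∈ I, ∀ (n : ℕ) (F : Fin n → Form act),
      (∀ a : Fin n → A, ∃ u ∈ L.fixingSubgroup, ∀ k, (F k).c u = a k) →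
      ∀ (m : Fin n → ℕ) (E : Fin n → HeightOneSpectrum (𝓞 K) → ℂ[X]),
        (∀ k, IsEuler H (F k) i (m k) (E k)) →
        (∀ (m₀ : ℕ) (E₀ : HeightOneSpectrum (𝓞 K) → ℂ[X]),
          IsEuler H (quotientForm act) i m₀ E₀ →
          (∀ η : ℝ, 0 < η → ∀ᶠ ε : ℝ in 𝓝[>] 0,
            ∑ k, (size i (E k) ε - size i E₀ ε) ^ 2 ≤ ((N i : ℝ) - n₀ i) ^ 2 + η) ∧
          ∀ (r₀ : ℤ) (r : Fin n → ℤ), HasOrder i E₀ r₀ → (∀ k, HasOrder i (E k) (r k)) →
            ∑ k, (r k - r₀) ^ 2 ≤ ((N i : ℤ) - n₀ i) ^ 2) ∧
        (IsAlgebraic H i → ∀ r : Fin n → ℤ, (∀ k, HasOrder i (E k) (r k)) →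
          ∑ k, (r k + n₀ i) ^ 2 ≤ ((N i : ℤ) - n₀ i) ^ 2) := by
  have hfA : Fintype A := Fintype.ofFinite A
  refine ⟨?_, ?_⟩
  · obtain ⟨M', h1, h2, h3, h4, δ, h5, h6, h7⟩ := governs_all I n₀ hn₀ L hL
    have hnor : M'.fixingSubgroup.Normal :=
      (InfiniteGalois.normal_iff_isGalois M').2 inferInstance
    have hle : M'.fixingSubgroup ≤ L.fixingSubgroup := IntermediateField.fixingSubgroup_le h1
    have hfin : Finite (Gal(AlgebraicClosure K/K) ⧸ M'.fixingSubgroup) :=
      Subgroup.quotient_finite_of_isOpen _ (IntermediateField.fixingSubgroup_isOpen M')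
    have hcyc : ∀ F F' : Form act, SameType M' F F' →
        ∀ (k V : Type) [Field k] [AddCommGroup V] [Module k V]
          (R : Representation k (A ⋊[act] Gal(AlgebraicClosure K/K)) V),
          (∀ σ ∈ L.fixingSubgroup, R (SemidirectProduct.inr σ) = 1) →
          F.cycles R = F'.cycles R := fun F F' hF k V _ _ _ R hR =>
      cycles_eq R hnor (fun u hu => hR u (hle hu)) hF
    refine ⟨M', h1, h2, h3, h4, ?_, fun F hF => sameType_quotient (hle.trans hL) F hF, ?_, ?_⟩
    · obtain ⟨S, hS1, hS2⟩ := finite_types (act := act) hnor hfin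
      refine ⟨S, ?_, hS2⟩
      rwa [IntermediateField.finrank_eq_fixingSubgroup_index]
    · intro F F' hF
      refine ⟨hcyc F F' hF, fun i hi m m' E E' hE hE' => ?_⟩
      have hf := h7 i hi F F' hF m m' E E' hE hE'
      refine ⟨(size_form hE).1, hf.mono fun ε h => h.trans h6, fun r r' hr hr' => ?_⟩
      have e := order_of_freq h6 hf hr hr'
      refine ⟨e, fun k V _ _ _ R hR => ?_⟩
      rw [hcyc F F' hF k V R hR, e]
    · intro i hi hA F hF m E hE
      have hE₀ := algE_isEuler (hn₀ i hi) hA
      have hf := h7 i hi F _ hF m (n₀ i) E _ hE hE₀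
      have hlim := size_alg (hn₀ i hi) hA hE₀
      constructor
      · have h8 : ∀ᶠ ε : ℝ in 𝓝[>] 0, |size i (algE K i (n₀ i)) ε - n₀ i| < 1 - δ := by
          refine ((Metric.tendsto_nhds.1 hlim) (1 - δ) (by linarith)).mono fun ε h => ?_
          rwa [Real.dist_eq] at h
        refine (hf.and_eventually h8).mono fun ε h => ?_
        calc |size i E ε - n₀ i|
            = |(size i E ε - size i (algE K i (n₀ i)) ε) +
                (size i (algE K i (n₀ i)) ε - n₀ i)| := by
              congr 1
              ring
          _ ≤ |size i E ε - size i (algE K i (n₀ i)) ε| +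
                |size i (algE K i (n₀ i)) ε - n₀ i| := abs_add_le _ _
          _ < 1 := by linarith [h.1, h.2]
      · intro r hr
        have h9 := ((Pool.Agent.Y149.Ord.tendsto_size hr).sub hlim).abs
        have h10 : |-(r : ℝ) - n₀ i| ≤ δ := by
          by_contra hcon
          push Not at hcon
          exact hf ((h9.eventually (lt_mem_nhds hcon)).mono fun ε h3 => not_lt.2 (le_of_lt h3))
        have h11 : |(r : ℝ) + n₀ i| < 1 := by
          have e : (r : ℝ) + n₀ i = -(-(r : ℝ) - n₀ i) := by ring
          rw [e, abs_neg]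
          linarith
        have h12 : |r + (n₀ i : ℤ)| < 1 := by exact_mod_cast h11
        have h13 := Int.abs_lt_one_iff.1 h12
        omega
  · intro i hi n F hF m E hE
    refine ⟨fun m₀ E₀ hE₀ => ⟨fun η hη => ind_sum (hn₀ i hi) L hL F hF hE hE₀ hη,
      fun r₀ r hr₀ hr => ind_order (hn₀ i hi) L hL F hF hE hE₀ hr
        (Pool.Agent.Y149.Ord.tendsto_size hr₀)⟩, fun hA r hr => ?_⟩
    have hE₀ := algE_isEuler (hn₀ i hi) hA
    have hlim := size_alg (hn₀ i hi) hA hE₀
    have h := ind_order (hn₀ i hi) L hL F hF hE hE₀ hr (o₀ := -(n₀ i : ℤ)) (by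
      simpa using hlim)
    simpa [sub_neg_eq_add] using h

end Pool.Agent.Results.MP_058a58_ag.TwistedForms
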